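import Pool.Agent.U79.GZ.Stm

/-!
# Project GZ: package ISO
-/

set_option autoImplicit false

namespace Pool.Agent.U148.GZ

open Pool.Agent.U115.GE (Qs)

/-- if `d` is a nonzero square, every element is of the form `s² - d t²` -/
lemma of_sq {K : Type} [Field K] [CharZero K] {d x δ : K} (hd : d ≠ 0) (h : d = δ ^ 2) :
    ∃ s t : K, x = s ^ 2 - d * t ^ 2 := by
  have hδ : δ ≠ 0 := by
    rintro rfl
    exact hd (by rw [h]; ring)
  refine ⟨(x + 1) / 2, (x - 1) / (2 * δ), ?_⟩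
  rw [h]
  field_simp
  ring

/-- quotients of norms -/
lemma of_quot {K : Type} [Field K] {d x a b c e : K} (h : a ^ 2 - d * b ^ 2 = x * (c ^ 2 - d * e ^ 2))
    (hne : c ^ 2 - d * e ^ 2 ≠ 0) : ∃ s t : K, x = s ^ 2 - d * t ^ 2 := by
  refine ⟨(a * c + d * b * e) / (c ^ 2 - d * e ^ 2), (a * e + b * c) / (c ^ 2 - d * e ^ 2), ?_⟩
  have h1 : x * (c ^ 2 - d * e ^ 2) ^ 2 =
      (a * c + d * b * e) ^ 2 - d * (a * e + b * c) ^ 2 := by
    linear_combination (-(c ^ 2 - d * e ^ 2)) * h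
  rw [div_pow, div_pow, mul_div_assoc', ← sub_div, eq_div_iff (pow_ne_zero 2 hne), h1]

/-- GZ-ISO -/
theorem t_ISO : Pool.Agent.U79.GZ.S_ISO := by
  intro K _ _ A B d d' hB hC hd hd' h1 h2
  obtain ⟨N, M, e, hMe, hN⟩ := h1
  obtain ⟨N', M', e', hMe', hN'⟩ := h2
  have hdK : (d : K) ≠ 0 := Int.cast_ne_zero.2 hd
  have hdK' : (d' : K) ≠ 0 := Int.cast_ne_zero.2 hd'
  have hBK : (B : K) ≠ 0 := Int.cast_ne_zero.2 hB
  have hCK : ((A ^ 2 - 4 * B : ℤ) : K) ≠ 0 := Int.cast_ne_zero.2 hC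
  by_cases he : e = 0
  · have hM : M ≠ 0 := by
      rcases hMe with h | h
      · exact h
      · exact absurd he h
    refine of_sq hdK (δ := N / M ^ 2) ?_
    rw [he] at hN
    rw [div_pow, eq_div_iff (pow_ne_zero 2 (pow_ne_zero 2 hM)), hN]
    ring
  by_cases he' : e' = 0
  · have hM : M' ≠ 0 := by
      rcases hMe' with h | h
      · exact h
      · exact absurd he' h
    refine ⟨N' / M' ^ 2, 0, ?_⟩
    rw [he'] at hN'
    have h3 : (d' : K) = (N' / M' ^ 2) ^ 2 := by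
      rw [div_pow, eq_div_iff (pow_ne_zero 2 (pow_ne_zero 2 hM)), hN']
      ring
    rw [h3]
    ring
  obtain ⟨m, hm⟩ : ∃ m, m = M / e := ⟨_, rfl⟩
  obtain ⟨v, hv⟩ : ∃ v, v = N / e ^ 2 := ⟨_, rfl⟩
  obtain ⟨m', hm'⟩ : ∃ m', m' = M' / e' := ⟨_, rfl⟩
  obtain ⟨v', hv'⟩ : ∃ v', v' = N' / e' ^ 2 := ⟨_, rfl⟩
  have k1 : (d : K) * v ^ 2 = d ^ 2 * m ^ 4 + A * d * m ^ 2 + B := by
    rw [hv, hm, div_pow, hN]
    field_simp
  have k2 : (d' : K) * v' ^ 2 = d' ^ 2 * m' ^ 4 - 2 * A * d' * m' ^ 2 + (A ^ 2 - 4 * B) := by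
    rw [hv', hm', div_pow, hN']
    push_cast
    field_simp
    ring
  push_cast at hCK
  have key : (d' * m' ^ 2 - 2 * d * m ^ 2 - A) ^ 2 - (d : K) * (2 * v) ^ 2 =
      d' * (v' ^ 2 - d * (2 * m * m') ^ 2) := by
    linear_combination (-4) * k1 - k2
  by_cases hz : v' ^ 2 - (d : K) * (2 * m * m') ^ 2 = 0
  · by_cases hmm : 2 * m * m' = 0
    · have hv0 : v' = 0 := by
        rw [hmm] at hz
        have : v' ^ 2 = 0 := by linear_combination hz
        exact pow_eq_zero_iff (two_ne_zero) |>.1 this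
      have hm'0 : m' ≠ 0 := by
        rintro rfl
        rw [hv0] at k2
        apply hCK
        linear_combination -k2
      have hm0 : m = 0 := by
        rcases mul_eq_zero.1 hmm with h | h
        · rcases mul_eq_zero.1 h with h | h
          · exact absurd h two_ne_zero
          · exact h
        · exact absurd h hm'0
      have hvne : v ≠ 0 := by
        rintro rfl
        rw [hm0] at k1
        apply hBK
        linear_combination -k1
      rw [hz, mul_zero] at key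
      refine of_sq hdK (δ := (d' * m' ^ 2 - 2 * d * m ^ 2 - A) / (2 * v)) ?_
      have h2v : (2 * v) ≠ 0 := mul_ne_zero two_ne_zero hvne
      rw [div_pow, eq_div_iff (pow_ne_zero 2 h2v)]
      linear_combination -key
    · refine of_sq hdK (δ := v' / (2 * m * m')) ?_
      rw [div_pow, eq_div_iff (pow_ne_zero 2 hmm)]
      linear_combination -hz
  · exact of_quot key hz

end Pool.Agent.U148.GZ
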